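import Pool.Agent.V5helper29.RLS.Stm

/-!
# Project RLS: jobs FUB and GSL
-/

set_option autoImplicit false

open MeasureTheory ProbabilityTheory Filter Topology
open scoped Matrix ENNReal

namespace Pool.Agent.V5helper72.RLS

open Pool.Agent.V5helper29.RLS

theorem t_FUB : S_FUB := by
  intro α _ μ _ n i S p hS h
  have hmp := measurePreserving_piFinSuccAbove (fun _ : Fin (n + 1) => μ) i
  have hS' : MeasurableSet ((MeasurableEquiv.piFinSuccAbove (fun _ : Fin (n + 1) => α) i).symm ⁻¹' S) :=
    (MeasurableEquiv.piFinSuccAbove (fun _ : Fin (n + 1) => α) i).symm.measurable hS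
  have e1 : Measure.pi (fun _ : Fin (n + 1) => μ) S =
      (μ.prod (Measure.pi fun _ : Fin n => μ))
        ((MeasurableEquiv.piFinSuccAbove (fun _ : Fin (n + 1) => α) i).symm ⁻¹' S) := by
    rw [← hmp.measure_preimage hS'.nullMeasurableSet]
    congr 1
    ext x
    simp only [Set.mem_preimage, MeasurableEquiv.symm_apply_apply]
  rw [e1, Measure.prod_apply_symm hS']
  calc ∫⁻ y, μ ((fun x => (x, y)) ⁻¹' ((MeasurableEquiv.piFinSuccAbove (fun _ : Fin (n + 1) => α) i).symm ⁻¹' S))
        ∂(Measure.pi fun _ : Fin n => μ) ≤ ∫⁻ _, p ∂(Measure.pi fun _ : Fin n => μ) := by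
        refine lintegral_mono fun z => ?_
        exact h z
    _ = p := by simp

/-- the measure of an interval -/
theorem gauss_interval (x s : ℝ) (hs : 0 ≤ s) : gaussianReal 0 1 (Set.Icc (x - s) (x + s)) ≤ ENNReal.ofReal s := by
  rw [gaussianReal_apply 0 one_ne_zero]
  calc ∫⁻ y in Set.Icc (x - s) (x + s), gaussianPDF 0 1 y
      ≤ ∫⁻ _ in Set.Icc (x - s) (x + s), ENNReal.ofReal (1 / 2) := by
        refine lintegral_mono fun y => ?_
        unfold gaussianPDF
        refine ENNReal.ofReal_le_ofReal ?_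
        unfold gaussianPDFReal
        have h1 : (2:ℝ) ≤ √(2 * Real.pi * ((1 : NNReal) : ℝ)) := by
          refine Real.le_sqrt_of_sq_le ?_
          have := Real.pi_gt_three
          push_cast
          linarith
        have h2 : (√(2 * Real.pi * ((1 : NNReal) : ℝ)))⁻¹ ≤ 1 / 2 := by
          rw [one_div]
          exact inv_anti₀ (by norm_num) h1
        have h3 : Real.exp (-(y - 0) ^ 2 / (2 * ((1 : NNReal) : ℝ))) ≤ 1 := by
          rw [Real.exp_le_one_iff]
          have : 0 ≤ (y - 0) ^ 2 := sq_nonneg _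
          push_cast
          linarith
        have h4 : 0 ≤ (√(2 * Real.pi * ((1 : NNReal) : ℝ)))⁻¹ := by positivity
        calc (√(2 * Real.pi * ((1 : NNReal) : ℝ)))⁻¹ * Real.exp (-(y - 0) ^ 2 / (2 * ((1 : NNReal) : ℝ)))
            ≤ (1 / 2) * 1 := mul_le_mul h2 h3 (Real.exp_nonneg _) (by norm_num)
          _ = 1 / 2 := by norm_num
    _ = ENNReal.ofReal (1 / 2) * ENNReal.ofReal (2 * s) := by
        rw [setLIntegral_const, Real.volume_Icc]
        congr 2
        ring
    _ = ENNReal.ofReal s := by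
        rw [← ENNReal.ofReal_mul (by norm_num)]
        congr 1
        ring

theorem t_GSL : S_GSL := by
  intro m u s hs hk
  obtain ⟨k, hk⟩ := hk
  obtain ⟨n, rfl⟩ : ∃ n, m = n + 1 := ⟨m - 1, by have := k.pos; omega⟩
  have hm : Measurable (fun r : Fin (n + 1) → ℝ => ∑ j, r j * u j) := by fun_prop
  refine t_FUB ℝ (gaussianReal 0 1) n k _ _ ?_ fun z => ?_
  · exact measurableSet_le (by fun_prop) measurable_const
  · have hu : u k = 1 ∨ u k = -1 := by
      rcases abs_eq (by norm_num : (0:ℝ) ≤ 1) |>.mp hk with h | h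
      · exact Or.inl h
      · exact Or.inr h
    set c := ∑ j : Fin n, z j * u (k.succAbove j) with hc
    have hsub : {r : ℝ | (k.insertNth (α := fun _ => ℝ) r z) ∈ {r : Fin (n + 1) → ℝ | |∑ j, r j * u j| ≤ s}} ⊆
        Set.Icc (-(u k * c) - s) (-(u k * c) + s) := by
      intro r hr
      have hr' : |∑ j, (k.insertNth (α := fun _ => ℝ) r z) j * u j| ≤ s := hr
      rw [Fin.sum_univ_succAbove _ k] at hr'
      simp only [Fin.insertNth_apply_same, Fin.insertNth_apply_succAbove] at hr'
      rw [← hc, abs_le] at hr'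
      obtain ⟨h1, h2⟩ := hr'
      rw [Set.mem_Icc]
      rcases hu with h | h <;> rw [h] at h1 h2 ⊢ <;> constructor <;> linarith
    exact (measure_mono hsub).trans (gauss_interval _ s hs)

end Pool.Agent.V5helper72.RLS
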