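import Pool.Agent.V5helper29.RLS.Stm

/-!
# Project RLS: jobs ORT, GCL, CLO and CB
-/

set_option autoImplicit false

open MeasureTheory ProbabilityTheory Filter Topology
open scoped Matrix ENNReal

namespace Pool.Agent.V5helper72.RLS

open Pool.Agent.V5helper29.RLS

theorem t_ORT : S_ORT := by
  intro n z
  let L : (Fin (n + 1) → ℝ) →ₗ[ℝ] (Fin n → ℝ) := Matrix.mulVecLin (Matrix.of z)
  have hker : LinearMap.ker L ≠ ⊥ := LinearMap.ker_ne_bot_of_finrank_lt (by simp)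
  obtain ⟨u, hu, hu0⟩ := Submodule.exists_mem_ne_zero_of_ne_bot hker
  obtain ⟨j0, hj0⟩ := Finite.exists_max (fun j => |u j|)
  have hpos : 0 < |u j0| := by
    obtain ⟨j, hj⟩ : ∃ j, u j ≠ 0 := by
      by_contra hcon
      push Not at hcon
      exact hu0 (funext hcon)
    exact (abs_pos.mpr hj).trans_le (hj0 j)
  have hne : u j0 ≠ 0 := abs_pos.mp hpos
  refine ⟨fun j => u j / u j0, ⟨j0, ?_⟩, fun j => ?_, fun k => ?_⟩
  · rw [abs_div, div_self hpos.ne']
  · rw [abs_div, div_le_one hpos]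
    exact hj0 j
  · have h1 : L u = 0 := hu
    have h2 := congrFun h1 k
    simp only [L, Matrix.mulVecLin_apply, Matrix.mulVec, dotProduct, Matrix.of_apply, Pi.zero_apply] at h2
    calc ∑ j, z k j * (u j / u j0) = (∑ j, z k j * u j) / u j0 := by
          rw [Finset.sum_div]
          exact Finset.sum_congr rfl fun j _ => by ring
      _ = 0 := by rw [h2, zero_div]

lemma nrm_cont (n : ℕ) : Continuous (nrm : (Fin n → ℝ) → ℝ) :=
  (PiLp.continuous_toLp 2 (fun _ : Fin n => ℝ)).norm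

lemma vec_cont (n : ℕ) : Continuous (fun p : (Fin n → Fin n → ℝ) × (Fin n → ℝ) =>
    p.2 ᵥ* (p.1 : Matrix (Fin n) (Fin n) ℝ)) := by
  refine continuous_pi fun j => ?_
  show Continuous (fun p : (Fin n → Fin n → ℝ) × (Fin n → ℝ) => ∑ i, p.2 i * p.1 i j)
  fun_prop

theorem t_CLO : S_CLO := by
  intro n
  have e1 : {A : Fin n → Fin n → ℝ | Good n A} = (⋂ i, ⋂ j, {A : Fin n → Fin n → ℝ | |A i j| ≤ (n : ℝ) ^ 2}) ∩
      ⋂ v : Fin n → ℝ, {A : Fin n → Fin n → ℝ | nrm v ≤ (n : ℝ) ^ 8 * nrm (v ᵥ* (A : Matrix (Fin n) (Fin n) ℝ))} := by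
    ext A
    simp only [Set.mem_inter_iff, Set.mem_iInter]
    exact Iff.rfl
  rw [e1]
  refine IsClosed.inter (isClosed_iInter fun i => isClosed_iInter fun j => ?_) (isClosed_iInter fun v => ?_)
  · exact isClosed_le (by fun_prop) continuous_const
  · refine isClosed_le continuous_const (continuous_const.mul ((nrm_cont n).comp ?_))
    exact (vec_cont n).comp (Continuous.prodMk continuous_id continuous_const)

theorem t_GCL : S_GCL := by
  intro n i R t
  let K : Set (Fin n → ℝ) := Set.pi Set.univ fun _ => Set.Icc (-R) R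
  have hK : IsCompact K := isCompact_univ_pi fun _ => isCompact_Icc
  have : CompactSpace K := isCompact_iff_compactSpace.mp hK
  have e1 : {A : Fin n → Fin n → ℝ | ∃ y : Fin n → ℝ, y i = 1 ∧ (∀ k, |y k| ≤ R) ∧
      nrm (y ᵥ* (A : Matrix (Fin n) (Fin n) ℝ)) ≤ t} = Prod.fst '' {p : (Fin n → Fin n → ℝ) × K |
        (p.2 : Fin n → ℝ) i = 1 ∧ nrm ((p.2 : Fin n → ℝ) ᵥ* (p.1 : Matrix (Fin n) (Fin n) ℝ)) ≤ t} := by
    ext A
    constructor
    · rintro ⟨y, h1, h2, h3⟩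
      exact ⟨(A, ⟨y, fun k _ => abs_le.mp (h2 k)⟩), ⟨h1, h3⟩, rfl⟩
    · rintro ⟨⟨A', y⟩, ⟨h1, h3⟩, rfl⟩
      exact ⟨y, h1, fun k => abs_le.mpr (y.2 k (Set.mem_univ k)), h3⟩
  rw [e1]
  refine isClosedMap_fst_of_compactSpace _ ?_
  refine IsClosed.inter ?_ ?_
  · exact isClosed_eq ((continuous_apply i).comp (continuous_subtype_val.comp continuous_snd)) continuous_const
  · refine isClosed_le ((nrm_cont n).comp ?_) continuous_const
    exact (vec_cont n).comp (Continuous.prodMk continuous_fst (continuous_subtype_val.comp continuous_snd))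

lemma cb_sq (k : ℕ) : Nat.centralBinom k ^ 2 * (2 * k + 1) ≤ 16 ^ k := by
  induction k with
  | zero => simp
  | succ k ih =>
    have h := Nat.succ_mul_centralBinom_succ k
    have h1 : (k + 1) ^ 2 * (Nat.centralBinom (k + 1) ^ 2 * (2 * (k + 1) + 1)) =
        4 * (2 * k + 1) * (2 * k + 3) * (Nat.centralBinom k ^ 2 * (2 * k + 1)) := by
      have : (k + 1) ^ 2 * (Nat.centralBinom (k + 1) ^ 2 * (2 * (k + 1) + 1)) =
          ((k + 1) * Nat.centralBinom (k + 1)) ^ 2 * (2 * k + 3) := by ring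
      rw [this, h]
      ring
    have h2 : 4 * (2 * k + 1) * (2 * k + 3) * (Nat.centralBinom k ^ 2 * (2 * k + 1)) ≤
        (k + 1) ^ 2 * 16 ^ (k + 1) := by
      calc 4 * (2 * k + 1) * (2 * k + 3) * (Nat.centralBinom k ^ 2 * (2 * k + 1))
          ≤ 4 * (2 * k + 1) * (2 * k + 3) * 16 ^ k := Nat.mul_le_mul_left _ ih
        _ ≤ (16 * (k + 1) ^ 2) * 16 ^ k := by
            refine Nat.mul_le_mul_right _ ?_
            nlinarith
        _ = (k + 1) ^ 2 * 16 ^ (k + 1) := by ring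
    rw [← h1] at h2
    exact Nat.le_of_mul_le_mul_left h2 (by positivity)

lemma cb_le (k : ℕ) : ((Nat.centralBinom k : ℕ) : ℝ) ≤ 4 ^ k / √(2 * k + 1) := by
  have h : ((Nat.centralBinom k : ℕ) : ℝ) ^ 2 * (2 * k + 1) ≤ 16 ^ k := by exact_mod_cast cb_sq k
  have hp : (0:ℝ) < 2 * k + 1 := by positivity
  rw [le_div_iff₀ (Real.sqrt_pos.mpr hp)]
  refine le_of_sq_le_sq ?_ (by positivity)
  rw [mul_pow, Real.sq_sqrt hp.le]
  refine h.trans (le_of_eq ?_)
  rw [← pow_mul, mul_comm, pow_mul]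
  norm_num

theorem t_CB : S_CB := by
  intro M
  rcases Nat.even_or_odd' M with ⟨k, rfl | rfl⟩
  · have e1 : (2 * k).choose (2 * k / 2) = Nat.centralBinom k := by
      rw [Nat.mul_div_cancel_left k (by norm_num)]; rfl
    rw [e1]
    refine (cb_le k).trans ?_
    push_cast
    have h4 : (4:ℝ) ^ k ≤ 2 ^ (2 * k + 1) := by
      have e4 : (2:ℝ) ^ (2 * k + 1) = 4 ^ k * 2 := by
        rw [pow_succ, pow_mul]; norm_num
      have : (0:ℝ) < 4 ^ k := by positivity
      linarith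
    gcongr
  · have e1 : (2 * k + 1).choose ((2 * k + 1) / 2) = (2 * k + 1).choose k := by
      congr 1; omega
    have e2 : 2 * (2 * k + 1).choose k = Nat.centralBinom (k + 1) := by
      have h := Nat.choose_symm_half k
      unfold Nat.centralBinom
      rw [show 2 * (k + 1) = (2 * k + 1) + 1 by ring, Nat.choose_succ_succ, h]
      ring
    have e3 : (2:ℝ) * (((2 * k + 1).choose k : ℕ) : ℝ) = ((Nat.centralBinom (k + 1) : ℕ) : ℝ) := by exact_mod_cast e2
    have h := cb_le (k + 1)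
    rw [← e3] at h
    rw [e1]
    push_cast at h ⊢
    have hs : √(2 * (k:ℝ) + 1 + 1) ≤ √(2 * ((k:ℝ) + 1) + 1) := Real.sqrt_le_sqrt (by linarith)
    have hs0 : 0 < √(2 * (k:ℝ) + 1 + 1) := Real.sqrt_pos.mpr (by positivity)
    have h5 : (4:ℝ) ^ (k + 1) / √(2 * ((k:ℝ) + 1) + 1) ≤ 2 ^ (2 * k + 1 + 1) / √(2 * (k:ℝ) + 1 + 1) := by
      have : (4:ℝ) ^ (k + 1) = 2 ^ (2 * k + 1 + 1) := by
        rw [show 2 * k + 1 + 1 = 2 * (k + 1) by ring, pow_mul]; norm_num
      rw [this]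
      gcongr
    have h6 : (0:ℝ) ≤ (((2 * k + 1).choose k : ℕ) : ℝ) := by positivity
    linarith

end Pool.Agent.V5helper72.RLS
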